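import Pool.Agent.Run7.h500.RD.Stm2

/-!
# Piece FUB2 of project RD2 (adapted from `Pool/Agent/Run7/h298/RD/FUB.lean`)
-/

set_option autoImplicit false

open MeasureTheory Filter Topology Set

namespace Pool.Agent.Run7.h220.RD2

open Pool.Agent.Run7.h500.RD

/-- The shear of the plane preserves the volume. -/
lemma mp_shear (a : ℝ) : MeasurePreserving (fun z : ℝ × ℝ => (z.1 + a * z.2, z.2))
    (volume : Measure (ℝ × ℝ)) (volume : Measure (ℝ × ℝ)) := by
  have hsw : MeasurePreserving (Prod.swap : ℝ × ℝ → ℝ × ℝ) ((volume : Measure ℝ).prod volume)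
      ((volume : Measure ℝ).prod volume) := Measure.measurePreserving_swap
  have hg : Measurable (Function.uncurry (fun y b : ℝ => b + a * y)) := by
    unfold Function.uncurry
    fun_prop
  have hsk : MeasurePreserving (fun p : ℝ × ℝ => (p.1, p.2 + a * p.1))
      ((volume : Measure ℝ).prod volume) ((volume : Measure ℝ).prod volume) :=
    (MeasurePreserving.id (volume : Measure ℝ)).skew_product (g := fun y b : ℝ => b + a * y) hg
      (Eventually.of_forall fun y => (measurePreserving_add_right volume (a * y)).map_eq)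
  exact hsw.comp (hsk.comp hsw)

/-- The reflection of the plane preserves the volume. -/
lemma mp_refl : MeasurePreserving (fun z : ℝ × ℝ => (z.1, -z.2))
    (volume : Measure (ℝ × ℝ)) (volume : Measure (ℝ × ℝ)) := by
  have h : MeasurePreserving (Prod.map (id : ℝ → ℝ) (fun y : ℝ => -y))
      ((volume : Measure ℝ).prod volume) ((volume : Measure ℝ).prod volume) :=
    (MeasurePreserving.id (volume : Measure ℝ)).prod (Measure.measurePreserving_neg volume)
  exact h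

lemma im_lin (c : ℂ) (a : ℝ) (z : ℝ × ℝ) : ((a : ℂ) * (z.2 : ℂ) - (z.1 : ℂ) + c).im = c.im := by
  simp

lemma lin_ne {c : ℂ} (hc : 0 < c.im) (a : ℝ) (z : ℝ × ℝ) :
    (a : ℂ) * (z.2 : ℂ) - (z.1 : ℂ) + c ≠ 0 := by
  intro h
  have := im_lin c a z
  rw [h] at this
  simp at this
  linarith

/-- `t ^ ρ0 ≤ κ t ^ ρ + const` -/
lemma rpow_bound {ρ0 ρ κ : ℝ} (h0 : 0 < ρ0) (h1 : ρ0 < ρ) (hκ : 0 < κ) :
    ∃ D : ℝ, 0 ≤ D ∧ ∀ t : ℝ, 0 ≤ t → t ^ ρ0 ≤ κ * t ^ ρ + D := by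
  have hlim := tendsto_rpow_atTop (sub_pos.2 h1)
  obtain ⟨T, hT⟩ := (((tendsto_atTop.1 hlim) (1 / κ)).and (eventually_gt_atTop 0)).exists
  obtain ⟨hT1, hT0⟩ := hT
  refine ⟨T ^ ρ0, Real.rpow_nonneg hT0.le _, fun t ht => ?_⟩
  rcases le_total t T with h | h
  · have h2 := Real.rpow_le_rpow ht h h0.le
    have h3 : 0 ≤ κ * t ^ ρ := mul_nonneg hκ.le (Real.rpow_nonneg ht _)
    linarith
  · have ht0 : 0 < t := lt_of_lt_of_le hT0 h
    have h2 : 1 / κ ≤ t ^ (ρ - ρ0) :=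
      hT1.trans (Real.rpow_le_rpow hT0.le h (sub_pos.2 h1).le)
    have h3 : t ^ ρ = t ^ (ρ - ρ0) * t ^ ρ0 := by
      rw [← Real.rpow_add ht0]
      congr 1
      ring
    have h4 : 0 < t ^ ρ0 := Real.rpow_pos_of_pos ht0 _
    have h5 : 1 ≤ κ * t ^ (ρ - ρ0) := by
      rw [div_le_iff₀ hκ] at h2
      linarith
    have h6 : t ^ ρ0 ≤ κ * t ^ ρ := by
      rw [h3]
      nlinarith
    have h7 : 0 ≤ T ^ ρ0 := Real.rpow_nonneg hT0.le _
    linarith

/-- The basic estimate for real slopes. -/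
lemma ker2_le (hK : S_KER2) {ρ0 ρ ε : ℝ} (k : ℕ) {c : ℂ} (hp : Par ρ0 ρ ε) (hc : 0 < c.im) :
    ∃ B : ℝ, 0 ≤ B ∧ ∀ (a : ℝ) (z : ℝ × ℝ),
      ‖ker2 ρ ε k c (a : ℂ) z‖ ≤ B * Real.exp (-(|z.1 - a * z.2| ^ ρ0)) := by
  have hρ : 0 < ρ := hp.h0.trans hp.h1
  obtain ⟨_, hE, _, _⟩ := hK ρ ε hρ hp.h2 hp.h3
  have hcos : 0 < Real.cos (Real.pi * ρ / 2) := by
    apply Real.cos_pos_of_mem_Ioo
    have hpi := Real.pi_pos
    have := hp.h2
    constructor
    · have : 0 < Real.pi * ρ / 2 := by positivity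
      linarith
    · nlinarith
  have hκ : 0 < ε * Real.cos (Real.pi * ρ / 2) := mul_pos hp.h3 hcos
  obtain ⟨D, hD, hDb⟩ := rpow_bound hp.h0 hp.h1 hκ
  refine ⟨(c.im ^ k)⁻¹ * Real.exp (D + ‖c‖ ^ ρ0), by positivity, ?_⟩
  intro a z
  set ζ : ℂ := (a : ℂ) * (z.2 : ℂ) - (z.1 : ℂ) + c with hζ
  have him : 0 < ζ.im := by rw [hζ, im_lin]; exact hc
  have h1 : c.im ≤ ‖ζ‖ := by
    have := Complex.abs_im_le_norm ζ
    rw [hζ, im_lin] at this
    exact (le_abs_self _).trans this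
  have h2 : |z.1 - a * z.2| ≤ ‖ζ‖ + ‖c‖ := by
    have e : ζ.re = -(z.1 - a * z.2) + c.re := by
      rw [hζ]; simp
    have h3 := Complex.abs_re_le_norm ζ
    have h4 := Complex.abs_re_le_norm c
    have e2 : z.1 - a * z.2 = -ζ.re + c.re := by rw [e]; ring
    rw [e2]
    refine (abs_add_le _ _).trans ?_
    rw [abs_neg]
    linarith
  have h3 : |z.1 - a * z.2| ^ ρ0 ≤ ‖ζ‖ ^ ρ0 + ‖c‖ ^ ρ0 := by
    refine (Real.rpow_le_rpow (abs_nonneg _) h2 hp.h0.le).trans ?_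
    exact Real.rpow_add_le_add_rpow (norm_nonneg _) (norm_nonneg _) hp.h0.le
      (hp.h1.trans hp.h2).le
  have h4 := hDb ‖ζ‖ (norm_nonneg _)
  unfold ker2 Pool.Agent.Run7.h500.RD.ker
  rw [← hζ, norm_mul, norm_inv, norm_pow]
  have h5 : (‖ζ‖ ^ k)⁻¹ ≤ (c.im ^ k)⁻¹ := by
    apply inv_anti₀ (pow_pos hc k)
    exact pow_le_pow_left₀ hc.le h1 k
  have h6 : ‖EE ρ ε ζ‖ ≤ Real.exp (D + ‖c‖ ^ ρ0) * Real.exp (-(|z.1 - a * z.2| ^ ρ0)) := by
    refine (hE ζ him).trans ?_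
    rw [← Real.exp_add]
    apply Real.exp_le_exp.2
    linarith
  calc (‖ζ‖ ^ k)⁻¹ * ‖EE ρ ε ζ‖ ≤ (c.im ^ k)⁻¹ *
        (Real.exp (D + ‖c‖ ^ ρ0) * Real.exp (-(|z.1 - a * z.2| ^ ρ0))) := by
        gcongr
    _ = _ := by ring

lemma cont2 (hK : S_KER2) {ρ0 ρ ε : ℝ} (k : ℕ) {c : ℂ} (hp : Par ρ0 ρ ε) (hc : 0 < c.im)
    {f : ℝ × ℝ → ℝ} (hf : Continuous f) (a : ℝ) :
    Continuous (fun z : ℝ × ℝ => (f z : ℂ) * ker2 ρ ε k c (a : ℂ) z) := by
  have hρ : 0 < ρ := hp.h0.trans hp.h1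
  obtain ⟨hd, _, _, _⟩ := hK ρ ε hρ hp.h2 hp.h3
  unfold ker2 Pool.Agent.Run7.h500.RD.ker
  refine (Complex.continuous_ofReal.comp hf).mul (Continuous.mul
    (Continuous.inv₀ (by fun_prop) fun z => ?_) ?_)
  · exact pow_ne_zero k (lin_ne hc a z)
  · refine hd.continuousOn.comp_continuous (by fun_prop) fun z => ?_
    show 0 < ((a : ℂ) * (z.2 : ℂ) - (z.1 : ℂ) + c).im
    rw [im_lin]
    exact hc

lemma int_real2 (hK : S_KER2) {ρ0 ρ ε : ℝ} (k : ℕ) {c : ℂ} (hp : Par ρ0 ρ ε) (hc : 0 < c.im)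
    {f : ℝ × ℝ → ℝ} (hf : Continuous f) {a : ℝ} (hw : WE f ρ0 a) :
    Integrable (fun z : ℝ × ℝ => (f z : ℂ) * ker2 ρ ε k c (a : ℂ) z) := by
  obtain ⟨B, hB, hBb⟩ := ker2_le hK k hp hc
  have hb : Integrable (fun z : ℝ × ℝ =>
      B * ‖f z * Real.exp (-(|z.1 - a * z.2| ^ ρ0))‖) := (Integrable.norm hw).const_mul _
  refine hb.mono' (cont2 hK k hp hc hf a).aestronglyMeasurable (Eventually.of_forall fun z => ?_)
  rw [norm_mul, Complex.norm_real, norm_mul, Real.norm_of_nonneg (Real.exp_pos _).le]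
  calc ‖f z‖ * ‖ker2 ρ ε k c (a : ℂ) z‖ ≤
        ‖f z‖ * (B * Real.exp (-(|z.1 - a * z.2| ^ ρ0))) :=
        mul_le_mul_of_nonneg_left (hBb a z) (norm_nonneg _)
    _ = _ := by ring

theorem t_FUB2 : S_FUB2 := by
  intro hK ρ0 ρ ε k c hp hc f hf hzero a hw
  set F : ℝ × ℝ → ℂ := fun z => (f z : ℂ) * ker2 ρ ε k c (a : ℂ) z with hF
  have hFi : Integrable F := int_real2 hK k hp hc hf hw
  have hFc : Continuous F := cont2 hK k hp hc hf a
  -- the lower half
  have hmu : MeasurableSet up := measurableSet_lt measurable_const measurable_snd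
  have hdown : Vp2 (Pool.Agent.Run7.h500.RD.flip f) ρ ε k c (-(a : ℂ)) = ∫ z in {z : ℝ × ℝ | z.2 < 0}, F z := by
    have hme : MeasurableSet {z : ℝ × ℝ | z.2 < 0} := measurableSet_lt measurable_snd measurable_const
    unfold Vp2
    rw [← integral_indicator hmu, ← integral_indicator hme]
    have h1 : ∫ z, ({z : ℝ × ℝ | z.2 < 0}).indicator F z =
        ∫ z : ℝ × ℝ, ({z : ℝ × ℝ | z.2 < 0}).indicator F (z.1, -z.2) := by
      conv_lhs => rw [← mp_refl.map_eq]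
      rw [integral_map mp_refl.measurable.aemeasurable]
      exact (hFc.measurable.indicator hme).aestronglyMeasurable
    rw [h1]
    refine integral_congr_ae (Eventually.of_forall fun z => ?_)
    simp only
    by_cases hz : 0 < z.2
    · have m1 : z ∈ up := hz
      have m2 : ((z.1, -z.2) : ℝ × ℝ) ∈ {z : ℝ × ℝ | z.2 < 0} := by
        show -z.2 < 0
        linarith
      rw [indicator_of_mem m1, indicator_of_mem m2]
      simp only [hF, Pool.Agent.Run7.h500.RD.flip, ker2, Pool.Agent.Run7.h500.RD.ker]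
      have e : (-(a : ℂ)) * (z.2 : ℂ) - (z.1 : ℂ) + c =
          (a : ℂ) * ((-z.2 : ℝ) : ℂ) - (z.1 : ℂ) + c := by
        push_cast
        ring
      rw [e]
    · have m1 : z ∉ up := hz
      have m2 : ((z.1, -z.2) : ℝ × ℝ) ∉ {z : ℝ × ℝ | z.2 < 0} := by
        intro h
        have : -z.2 < 0 := h
        exact hz (by linarith)
      rw [indicator_of_notMem m1, indicator_of_notMem m2]
  have hup : Vp2 f ρ ε k c (a : ℂ) = ∫ z in up, F z := rfl
  -- the line is null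
  have hline : (volume : Measure (ℝ × ℝ)) {z : ℝ × ℝ | z.2 = 0} = 0 := by
    have e : {z : ℝ × ℝ | z.2 = 0} = (univ : Set ℝ) ×ˢ ({0} : Set ℝ) := by
      ext z; simp
    rw [e, Measure.volume_eq_prod, Measure.prod_prod]
    simp
  have hsum : (∫ z in up, F z) + ∫ z in {z : ℝ × ℝ | z.2 < 0}, F z = ∫ z, F z := by
    have hme : MeasurableSet {z : ℝ × ℝ | z.2 < 0} := measurableSet_lt measurable_snd measurable_const
    have hdisj : Disjoint up {z : ℝ × ℝ | z.2 < 0} := by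
      rw [Set.disjoint_left]
      intro z h1 h2
      have h1' : 0 < z.2 := h1
      have h2' : z.2 < 0 := h2
      linarith
    rw [← setIntegral_union hdisj hme hFi.integrableOn hFi.integrableOn]
    conv_rhs => rw [← setIntegral_univ]
    refine setIntegral_congr_set ?_
    refine (ae_eq_set).2 ⟨?_, ?_⟩
    · simp
    · refine measure_mono_null ?_ hline
      intro z hz
      have h1 : ¬ (0 < z.2 ∨ z.2 < 0) := fun h => hz.2 h
      have : z.2 = 0 := by
        rcases lt_trichotomy z.2 0 with h | h | h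
        · exact absurd (Or.inr h) h1
        · exact h
        · exact absurd (Or.inl h) h1
      exact this
  rw [hup, hdown, hsum]
  -- the shear
  have hsh := mp_shear a
  have h1 : ∫ z, F z = ∫ z : ℝ × ℝ, F (z.1 + a * z.2, z.2) := by
    conv_lhs => rw [← hsh.map_eq]
    rw [integral_map hsh.measurable.aemeasurable hFc.aestronglyMeasurable]
  have h2 : Integrable (fun z : ℝ × ℝ => F (z.1 + a * z.2, z.2)) :=
    (hsh.integrable_comp hFc.aestronglyMeasurable).2 hFi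
  rw [h1, Measure.volume_eq_prod] at *
  rw [integral_prod _ h2]
  refine integral_eq_zero_of_ae (Eventually.of_forall fun b => ?_)
  simp only [Pi.zero_apply]
  have h3 : ∀ y : ℝ, F (b + a * y, y) = (f (b + a * y, y) : ℂ) *
      (((c - (b : ℂ)) ^ k)⁻¹ * EE ρ ε (c - (b : ℂ))) := by
    intro y
    simp only [hF, ker2, Pool.Agent.Run7.h500.RD.ker]
    have e : (a : ℂ) * (y : ℂ) - ((b + a * y : ℝ) : ℂ) + c = c - (b : ℂ) := by
      push_cast
      ring
    rw [e]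
  have h4 : ∫ y : ℝ, (f (b + a * y, y) : ℂ) = 0 := by
    have h5 := integral_ofReal (𝕜 := ℂ) (μ := (volume : Measure ℝ))
      (f := fun y : ℝ => f (b + a * y, y))
    rw [hzero a b] at h5
    simpa using h5
  calc ∫ y : ℝ, F (b + a * y, y)
      = ∫ y : ℝ, (f (b + a * y, y) : ℂ) * (((c - (b : ℂ)) ^ k)⁻¹ * EE ρ ε (c - (b : ℂ))) :=
        integral_congr_ae (Eventually.of_forall h3)
    _ = 0 := by rw [integral_mul_const, h4, zero_mul]

end Pool.Agent.Run7.h220.RD2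


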