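import Pool.Agent.Run7.h500.RD.Stm2

/-!
# Piece LSC2 of project RD2 (adapted from `Pool/Agent/Run7/h62/RD/LSC.lean`)
-/

set_option autoImplicit false
open MeasureTheory Filter Topology Set

namespace Pool.Agent.Run7.h220.RD2
open Pool.Agent.Run7.h500.RD

theorem wnorm2 (f : ℝ × ℝ → ℝ) (ρ0 : ℝ) (b : ℝ) (z : ℝ × ℝ) :
    ‖f z * Real.exp (-(|z.1 - b * z.2| ^ ρ0))‖ = |f z| * Real.exp (-(|z.1 - b * z.2| ^ ρ0)) := by
  rw [norm_mul, Real.norm_eq_abs, Real.norm_of_nonneg (Real.exp_pos _).le]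

theorem t_LSC2 : S_LSC2 := by
  intro f ρ0 hρ hf M
  apply IsSeqClosed.isClosed
  intro a a0 ha hlim
  have hcont : ∀ b : ℝ, Continuous (fun z : ℝ × ℝ =>
      f z * Real.exp (-(|z.1 - b * z.2| ^ ρ0))) := by
    intro b
    refine hf.mul (Real.continuous_exp.comp (Continuous.neg ?_))
    exact Continuous.rpow_const (by fun_prop) (fun _ => Or.inr hρ.le)
  have hN : ∀ b : ℝ, WE f ρ0 b →
      ∫⁻ z, ‖f z * Real.exp (-(|z.1 - b * z.2| ^ ρ0))‖ₑ = ENNReal.ofReal (NE f ρ0 b) := by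
    intro b hb
    have := ofReal_integral_norm_eq_lintegral_enorm hb
    rw [← this]
    congr 1
    unfold NE
    exact integral_congr_ae (Eventually.of_forall (fun z => wnorm2 f ρ0 b z))
  have hN0 : ∀ b : ℝ, 0 ≤ NE f ρ0 b := by
    intro b
    unfold NE
    exact integral_nonneg (fun z => mul_nonneg (abs_nonneg _) (Real.exp_pos _).le)
  have hM : 0 ≤ M := (hN0 (a 0)).trans (ha 0).2
  have key : ∫⁻ z, ‖f z * Real.exp (-(|z.1 - a0 * z.2| ^ ρ0))‖ₑ ≤ ENNReal.ofReal M := by
    calc ∫⁻ z, ‖f z * Real.exp (-(|z.1 - a0 * z.2| ^ ρ0))‖ₑ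
        = ∫⁻ z, liminf (fun n => ‖f z * Real.exp (-(|z.1 - a n * z.2| ^ ρ0))‖ₑ) atTop := by
          apply lintegral_congr
          intro z
          symm
          apply Tendsto.liminf_eq
          have hc : Continuous (fun b : ℝ => f z * Real.exp (-(|z.1 - b * z.2| ^ ρ0))) := by
            refine continuous_const.mul (Real.continuous_exp.comp (Continuous.neg ?_))
            exact Continuous.rpow_const (by fun_prop) (fun _ => Or.inr hρ.le)
          have h1 : Tendsto (fun n => f z * Real.exp (-(|z.1 - a n * z.2| ^ ρ0))) atTop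
              (𝓝 (f z * Real.exp (-(|z.1 - a0 * z.2| ^ ρ0)))) :=
            (hc.tendsto a0).comp hlim
          exact (continuous_enorm.tendsto _).comp h1
      _ ≤ liminf (fun n => ∫⁻ z, ‖f z * Real.exp (-(|z.1 - a n * z.2| ^ ρ0))‖ₑ) atTop :=
          lintegral_liminf_le (fun n => (hcont (a n)).measurable.enorm)
      _ ≤ liminf (fun _ : ℕ => ENNReal.ofReal M) atTop := by
          refine liminf_le_liminf (Eventually.of_forall (fun n => ?_))
          rw [hN (a n) (ha n).1]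
          exact ENNReal.ofReal_le_ofReal (ha n).2
      _ = ENNReal.ofReal M := liminf_const _
  have hW : WE f ρ0 a0 := ⟨(hcont a0).aestronglyMeasurable, lt_of_le_of_lt key ENNReal.ofReal_lt_top⟩
  refine ⟨hW, ?_⟩
  rw [hN a0 hW] at key
  exact (ENNReal.ofReal_le_ofReal_iff hM).1 key

end Pool.Agent.Run7.h220.RD2
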